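import Pool.Agent.H86.BC2.Gens

/-!
# Surjectivity of the Stolz map for groups of 2 × 2 matrices over rings with a degree function

If the real Baum–Connes assembly map of `Γ` is onto (for instance, if `Γ` satisfies the Baum–Connes
conjecture with coefficients) then `θ` is onto for `Γ`. `B` is a class of groups with the inheritance
properties of the Baum–Connes conjecture with coefficients:

* `InheritBC B`: for countable groups, `B` is closed under subgroups, directed unions, extensions with
  quotient in `B` such that the subgroups which contain the kernel with finite index are in `B`, and
  actions on trees without inversions with vertex stabilizers in `B` (Oyono-Oyono, Tu), and contains
  the virtually solvable groups (Higson–Kasparov).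
* `W B G`: every countable group with a subgroup of finite index which embeds in a finite power of `G`
  is in `B`. This holds for `G = GL₂(K)`, `K` any field, since the countable subgroups of `GL₂(K)` have
  the Haagerup property (Guentner–Higson–Weinberger). For division rings `K` it is an assumption.

`TreeIn B T`: the group `T` acts on a tree without inversions, with stabilizers of vertices in `W B`.

`Dg c d`: `R` is a ring which contains (by `c`) the division ring `k`, and `d : R → ℕ` is a degree
function, `d (r + s) ≤ max (d r) (d s)`, `d (r s) = d r + d s` for nonzero `r`, `s`, such that the
elements of degree zero are those of `k`. Examples: Weyl algebras (simple rings, in characteristic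
zero), universal enveloping algebras, free algebras, skew polynomial rings over division rings.

`Gen c` is the subgroup of `GL₂(R)` generated by `GL₂(k)` and the invertible upper triangular
matrices, so it is the group generated by `GL₂(k)` and the elementary matrices.

**Theorem.**
1. `Gen c` acts on a tree without inversions with vertex stabilizers in `W B`, if `GL₂(k)` is in `W B`.
2. If `R` has division with remainder for elements `a`, `b` which are right linearly dependent
   (P. M. Cohn's weak algorithm for two elements) then `Gen c = GL₂(R)`.
3. Let `R i`, `i` in a finite set, be rings with a degree function and `GL₂(k i)` in `W B`. Every
   countable group with homomorphisms to the groups `Gen (c i)` such that the intersection of the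
   kernels is in `W B` is in `B`; so `θ` is onto for this group.
4. More generally, if the groups `T i`, `i` in a finite set, act on trees as in 1 then every countable
   group `G` with homomorphisms to the `T i` such that the intersection of the kernels is in `W B` is in
   `B`.

If there is a homomorphism from `R` to a ring `T ≠ 0` with `GL₂(T)` in `W B` (as for free algebras) then
`Gen c` is even in `W B`; this is `MP_9f173d_gt.FilteredRings` of the library. Here there is no such
condition, and the ring may be simple.

Outline of the proof. Let `A = GL₂(k)` and let `E` be the group of the upper triangular matrices. The
degree `n g` of the matrix `g` depends only on `g A`, and the degree `m g` of its first column depends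
only on `g E`. Every vertex of the graph of the cosets of `A` and `E` has exactly one neighbour closer to
the base vertex, by comparison of degrees; so the graph is a tree. Units of `R` are in `k`, so `E` is an
extension of a subgroup of `A` by an abelian group. A countable group with homomorphisms to finitely
many groups acting on trees is treated one tree at a time: the stabilizers of the first tree act on
the second one, and so on.
-/

set_option autoImplicit false

namespace Pool.Agent.Results.MP_b169d2_gt.DegreeFunctionRings

open Pool.Agent.H86.BCP (InheritBC)
open Pool.Agent.H86.BC2

theorem result {B : ∀ (G : Type) [Group G], Prop} (h : InheritBC B) :
    DegreeRings B ∧ Generation ∧ DegreeProducts B ∧ Products B :=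
  ⟨degreeRings h, generation, degreeProducts h, products h⟩

end Pool.Agent.Results.MP_b169d2_gt.DegreeFunctionRings
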