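import Pool.Agent.H86.LP.Main

/-!
# Surjectivity of the Stolz map for groups of 2 × 2 matrices over noncommutative group rings

If the real Baum–Connes assembly map of `Γ` is onto (for instance, if `Γ` satisfies the Baum–Connes
conjecture with coefficients) then `θ` is onto for `Γ`. `B` is a class of groups with the inheritance
properties of the Baum–Connes conjecture with coefficients:

* `InheritBC B`: for countable groups, `B` is closed under subgroups, directed unions, extensions with
  quotient in `B` such that the subgroups which contain the kernel with finite index are in `B`, and
  actions on trees without inversions with vertex stabilizers in `B` (Oyono-Oyono, Tu), and contains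
  the virtually solvable groups (Higson–Kasparov).
* `W B G`: every countable group with a subgroup of finite index which embeds in a finite power of `G`
  is in `B`. This holds for `G = GL₂(K)`, `K` any field, since the countable subgroups of `GL₂(K)` have
  the Haagerup property (Guentner–Higson–Weinberger). For division rings `K` it is an assumption.

`Hier B T`: `T` is in the smallest class of groups which contains the groups in `W B` and contains `T`
if `T` acts on a tree without inversions, with the stabilizers of the vertices in the class, or if `T`
has a normal subgroup `N` in the class with `T ⧸ N` in `W B` and torsion-free.

`SkewMonoidAlgebra k (Multiplicative ℤ)` is the ring `k[t, 1/t; σ]` of the skew Laurent polynomials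
`∑ aₙ tⁿ`, `t a = σ(a) t`, where the automorphism `σ` is the action of the generator of `ℤ` on `k`.

**Theorem.**
1. Let `k` be a division ring with `GL₂(k)` in `W B`. Then `GL₂(k[t, 1/t; σ])` is in `Hier B`.
2. Let `R` be a commutative domain with an automorphism `σ` and let `F` be its field of fractions. If
   `GL₂(F)` is in `W B` then `GL₂(R[t, 1/t; σ])` is in `Hier B`.
3. Let `D` be a commutative domain, let `A` be an abelian group without torsion and let `F` be the
   field of fractions of `D[A]`. If `GL₂(F)` is in `W B` then `GL₂(D[A ⋊ ℤ])` is in `Hier B`.
4. If the groups `T i`, `i` in a finite set, are in `Hier B` then every countable group `G` with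
   homomorphisms to the `T i` such that the intersection of the kernels is in `W B` is in `B`.
5. In particular let `B` be a class with `GL₂(K)` in `W B` for all fields `K`, let `D i` be commutative
   domains and `A i` abelian groups without torsion. Every countable group `G` with homomorphisms to the
   groups `GL₂(D i[A i ⋊ ℤ])`, `i` in a finite set, such that the intersection of the kernels is in
   `W B` is in `B`; so `θ` is onto for `G`.

By the theorem of Guentner, Higson and Weinberger 5 holds for instance for the countable subgroups of
`GL₂(K[H])` and of `GL₂(ℤ[H])`, where `K` is a field and `H` is the Heisenberg group, a group
`BS(1, n)`, `ℤ ≀ ℤ` or the fundamental group of a Sol manifold; and 2 for the matrices over quantum tori.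

Outline of the proof. Let `R = k[t, 1/t; σ]`. The degree in `t` is a valuation of `R`; the elements of
degree at most zero are the ring `O = k[1/t; σ⁻¹]`. Let `T` be the subgroup of `GL₂(R)` generated by
`A = GL₂(O)` and its conjugate `E` by the matrix `ω` with rows `(0, t)`, `(1, 0)`. The least bound `n g`
of the degrees of the entries of `g` depends only on `g A`, and there is a similar bound `m g` which
depends only on `g E`; every vertex of the graph of the cosets of `A` and `E` in `T` has exactly one
neighbour closer to the base vertex, so the graph is a tree. A euclidean algorithm for the width (the
difference of the degree and the order) shows that `T` and `ω` generate `GL₂(R)`, and `T` is normal with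
infinite cyclic quotient. `GL₂(O)` acts on the tree of Nagao type for the degree in `1 / t`, with
stabilizers which are subgroups of `GL₂(k)` or extensions of such groups by abelian groups. `R ⊆ F` and
`D[A ⋊ ℤ] = D[A][t, 1/t; σ]` give 2 and 3.
-/

set_option autoImplicit false

namespace Pool.Agent.Results.MP_b169d2_gt.MatricesOverGroupRings

open Pool.Agent.H86.BCP (InheritBC)
open Pool.Agent.H86.LP

theorem result {B : ∀ (G : Type) [Group G], Prop} (h : InheritBC B) :
    LaurentRings B ∧ LaurentDomains B ∧ GroupRings B ∧ Products B ∧ Families B :=
  ⟨laurentRings h, laurentDomains h, groupRings h, products h, families h⟩

end Pool.Agent.Results.MP_b169d2_gt.MatricesOverGroupRings
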