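import Pool.Agent.H86.BCP.Jung

/-!
# Surjectivity of the Stolz map for groups of automorphisms of the affine plane over a ring

If the real Baum–Connes assembly map of `Γ` is onto (for instance, if `Γ` satisfies the Baum–Connes
conjecture with coefficients) then `θ` is onto for `Γ`. `B` is a class of groups with the inheritance
properties of the Baum–Connes conjecture with coefficients:

* `InheritBC B`: for countable groups, `B` is closed under subgroups, directed unions, extensions with
  quotient in `B` such that the subgroups which contain the kernel with finite index are in `B`, and
  actions on trees without inversions with vertex stabilizers in `B` (Oyono-Oyono, Tu), and contains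
  the virtually solvable groups (Higson–Kasparov).
* `W B G`: every countable group with a subgroup of finite index which embeds in a finite power of `G`
  is in `B`. This holds for `G = GL₂(K)`, `K` any field, since the countable subgroups of `GL₂(K)` have
  the Haagerup property (Guentner–Higson–Weinberger).

`Aut2 A` is the group of the automorphisms of the `A`-algebra `A[x, y]`, `TA A` is the subgroup of the
automorphisms which become tame (products of affine and elementary automorphisms) over every field to
which `A` maps. By the theorem of Jung and van der Kulk `TA A = Aut2 A`; this is proved here for
algebras over the rational numbers.

**Theorem.** Let `A` be a commutative ring and let `G` be a countable group with a homomorphism to the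
group of the automorphisms of `A[x, y]` with kernel in `W B` (for instance injective). Then `G` is in
`B`; so `θ` is onto for `G`.

Outline of the proof. By closure under directed unions `G` is finitely generated, so its image is
defined over a finitely generated subring `S` of `A`. `S` is noetherian; let `K_1, ..., K_n` be the
fraction fields of the minimal primes. The homomorphism to the product of the `Aut(K_i[x, y])` has a
kernel which is solvable by `W B` (the group of the automorphisms that are the identity modulo a
nilpotent ideal is solvable). `Aut(K_i[x, y])` acts on a tree with the conjugates of the affine and of the
triangular group as stabilizers of the vertices. So `G` acts on `n` trees, and the stabilizer of a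
tuple of vertices is an extension of a subgroup of a product of affine and triangular groups by a group
in `W B`, hence in `W B`. Closure under actions on trees is applied `n` times.
-/

set_option autoImplicit false

namespace Pool.Agent.Results.MP_b169d2_gt.PolynomialAutomorphisms

open Pool.Agent.R941.BC (W)
open Pool.Agent.H86.BCP (InheritBC)
open Pool.Agent.K7.H10.PA (Aut2 TA)
open Matrix

theorem result {B : ∀ (G : Type) [Group G], Prop} (h : InheritBC B)
    (hGL : ∀ (K : Type) [Field K], W B (GL (Fin 2) K)) :
    (∀ (A : Type) [CommRing A] [Algebra ℚ A] (G : Type) [Group G] [Countable G] (f : G →* Aut2 A),
      W B f.ker → B G) ∧
    (∀ (A : Type) [CommRing A] (G : Type) [Group G] [Countable G] (f : G →* Aut2 A),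
      (∀ g, f g ∈ TA A) → W B f.ker → B G) :=
  ⟨fun _ _ _ _ _ _ f hk => Pool.Agent.H86.BCP.plane h hGL f
      (fun g => Pool.Agent.H86.BCP.TA_top (f g)) hk,
    fun _ _ _ _ _ f hf hk => Pool.Agent.H86.BCP.plane h hGL f hf hk⟩

end Pool.Agent.Results.MP_b169d2_gt.PolynomialAutomorphisms
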