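import Pool.Agent.H53.BR.BC
import Pool.Agent.H53.IL.ECor

/-!
# Virtual braid groups and virtual Artin groups, and surjectivity of the Stolz map

If the real Baum–Connes assembly map of `Γ` is onto (for instance, if `Γ` satisfies the Baum–Connes
conjecture with coefficients) then `θ` is onto for `Γ`. `B` is a class of groups with the inheritance
properties of the Baum–Connes conjecture with coefficients (`InheritBC B`).

`W B` is the class of the groups `G` such that every countable group with a subgroup of finite index
which embeds in a finite power of `G` is in `B` (equivalently: finite wreath products over `G`). It is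
closed under subgroups, overgroups of finite index, directed unions and arbitrary extensions
(`MP_ba76ae_gt.ElementaryExtensions`). It is assumed that `W B` contains the free groups and the Coxeter
groups of finite rank (these are a-T-menable).

`VirtualArtin M` is the virtual Artin group of the Coxeter matrix `M` (the entry `0` stands for
infinity), defined by Bellingeri, Paris and Thiel: it has generators `σ i` and `τ i`, the `σ i` satisfy
the relations of the Artin group, the `τ i` those of the Coxeter group, and, for `i ≠ j` with
`m = M i j ≠ 0`, `v σ k = σ i v`, where `v = ⋯ τ j τ i` is the alternating product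
`alt (τ j) (τ i) (m - 1) = τ j τ i τ j ⋯` with `m - 1` factors, and `k = i` for even `m`, `k = j` for odd
`m`. For `M = CoxeterMatrix.A n` it is the virtual braid group on `n + 1` strands.

A `Block` of `M` is a set `X` of generators without the label infinity whose Coxeter graph is connected;
`sub M X` is the Coxeter matrix of `X`.

The Coxeter matrices:
- `CoxeterMatrix.A n`, `CoxeterMatrix.B n` are those of types `A_n` and `B_n`, `typeD n` that of type
  `D_n`, `n ≥ 4`: the path `0, …, n - 2`, with the vertex `n - 1` joined to `n - 3`;
- `cyc n`, `n ≥ 3`, is the cycle of length `n`, type affine `A_{n-1}`;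
- `cla n a b` is the path `0, …, n`, with a second copy of the vertex `0` if `a = true`, of the vertex
  `n` if `b = true` (the copies have the same neighbours, and the label `2` with each other); the labels
  of the edges are `3`, but `4` at the end `0` if `a = false`, and at the end `n` if `b = false`. This
  is type affine `C_n` for `a = b = false`, `n ≥ 2`; affine `B_{n+1}` for `a ≠ b` (for `n = 1` this is
  affine `C_2 = B_2`); affine `D_{n+2}` for `a = b = true` (for `n = 1` this is the cycle `cyc 4`).

Outline of the proof. By a lemma of Deodhar, and of Brink and Howlett, the virtual Artin group is the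
semidirect product of an Artin group, whose generators are the roots, and the Coxeter group, which
permutes them. This kernel has infinitely many generators, if the Coxeter group is infinite, but only
its finite irreducible sets of roots without the label infinity matter (`MP_b169d2_gt.ShephardGroups`).
If the label of `s` and `t` is infinite, the Coxeter group is an amalgamated product of the parabolic
subgroups of the complements of `s` and of `t`, and acts on a tree. Two roots in such a set lie in a
common conjugate of one of the two parabolic subgroups; by the Helly property of the tree all the roots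
of the set do. So the set is, up to the Coxeter group, a set of roots of a block. In types `A`, `B` and
affine `A` the Coxeter group permutes the coordinates up to sign, and the Artin group of the set is a
subgroup of an Artin group of type `B` or affine `A`. In rank two with a label `m ≥ 4` there are no three
such roots, because their Gram matrix would be regular; for the label `3` there is the set of type affine
`A₂`. The Artin groups of types `B` and affine `A` embed in the semidirect product of the free group
and the braid group; and the braid group on `n + 1` strands embeds in the wreath product of this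
semidirect product, for `n` strands, with the symmetric group, so that braid groups are in `W B`.
-/

set_option autoImplicit false

namespace Pool.Agent.Results.MP_b169d2_gt.VirtualBraidGroups

open Pool.Agent.Helper741 Pool.Agent.TH107 Pool.Agent.H53.VA Pool.Agent.H53.CL Pool.Agent.H53.IL
open Pool.Agent.R941.BC (Inherit W W_sub W_ext W_over)
open Pool.Agent.R779.BC (W_extCl)

/-- the inheritance properties of the Baum–Connes conjecture with coefficients for countable groups:
subgroups, directed unions, extensions -/
structure InheritBC (B : ∀ (G : Type) [Group G], Prop) : Prop where
  sub : ∀ (G H : Type) [Group G] [Group H] [Countable H] (f : G →* H), Function.Injective f →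
    B H → B G
  loc : ∀ (G : Type) [Group G] [Countable G], (∀ L : Subgroup G, L.FG → B L) → B G
  ext : ∀ (G : Type) [Group G] [Countable G] (N : Subgroup G) [N.Normal], B (G ⧸ N) →
    (∀ H : Subgroup G, N ≤ H → N.relIndex H ≠ 0 → B H) → B G

/-- each irreducible set of generators without the label infinity is contained in a set of generators
of type `A`, `B` or affine `A`, or with at most two elements -/
def LocallyElementary {V : Type} (M : CoxeterMatrix V) : Prop :=
  ∀ X : Set V, Block M X → ∃ Y : Set V, X ⊆ Y ∧ Elementary (sub M Y)

/-- Let `B` be a class of groups with the inheritance properties of the Baum–Connes conjecture with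
coefficients, such that `W B` contains the free groups and the Coxeter groups of finite rank. Let `M` be
a Coxeter matrix of finite rank.

1. The virtual braid groups are in `W B`. If each block of `M` is contained in a set of generators of
type `A`, `B` or affine `A`, or with at most two elements, then the virtual Artin group of `M` is in
`W B`. In particular, this holds if `M` is locally reducible.
2. If the virtual Artin group of `M` is in `W B`, then every extension of a group in `W B` by it is in
`W B`, and every countable extension of a group in `B` by it is in `B`.
3. The virtual Artin group of `M` is in `W B` if and only if the virtual Artin groups of the blocks of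
`M` are in `W B`.
4. The virtual Artin groups of the `M` such that each block is contained in a set of generators of type
`A`, `B`, `D` or with two elements are in `W B` if and only if the Artin groups of type affine `D` are in
`W B`. The same holds with the types affine `A`, affine `B`, affine `C`, affine `D` added on the left,
and affine `B`, affine `C` added on the right. -/
theorem result {B : ∀ (G : Type) [Group G], Prop} (h : InheritBC B) (hF : W B (FreeGroup ℕ))
    (hW : ∀ (V : Type) [Finite V] (M : CoxeterMatrix V), W B M.Group) :
    ((∀ n : ℕ, W B (VirtualArtin (CoxeterMatrix.A n))) ∧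
      (∀ (V : Type) [Fintype V] (M : CoxeterMatrix V), LocallyElementary M → W B (VirtualArtin M)) ∧
      (∀ (V : Type) [Fintype V] (M : CoxeterMatrix V), LocallyReducible M → W B (VirtualArtin M))) ∧
    (∀ (V : Type) [Fintype V] (M : CoxeterMatrix V), W B (VirtualArtin M) →
      ∀ (G : Type) [Group G] (N : Subgroup G) [N.Normal], Nonempty (VirtualArtin M ≃* N) →
        (W B (G ⧸ N) → W B G) ∧ (Countable G → B (G ⧸ N) → B G)) ∧
    (∀ (V : Type) [Fintype V] (M : CoxeterMatrix V),
      W B (VirtualArtin M) ↔ ∀ X : Set V, Block M X → W B (VirtualArtin (sub M X))) ∧
    ((∀ (V : Type) [Fintype V] (M : CoxeterMatrix V),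
      (∀ X : Set V, Block M X → ∃ Y : Set V, X ⊆ Y ∧ SphericalClassical (sub M Y)) →
        W B (VirtualArtin M)) ↔ ∀ n : ℕ, 2 ≤ n → W B (Artin (cla n true true))) ∧
    ((∀ (V : Type) [Fintype V] (M : CoxeterMatrix V),
      (∀ X : Set V, Block M X → ∃ Y : Set V, X ⊆ Y ∧
        (SphericalClassical (sub M Y) ∨ AffineClassical (sub M Y))) → W B (VirtualArtin M)) ↔
      ∀ (n : ℕ) (a b : Bool), 1 ≤ n → (a = true ∨ b = true ∨ 2 ≤ n) → W B (Artin (cla n a b))) := by
  have hI : Inherit B B := ⟨h.sub, h.loc, h.ext, h.ext⟩
  have hC := W_extCl hI hF
  have hfin := Pool.Agent.R665.She.BC.fin_W hI hF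
  have hcyc : ∀ n : ℕ, 3 ≤ n → W B (Artin (cyc n)) :=
    Pool.Agent.H53.BR.BC.cyc_mem hC (fun m => hfin _)
  have hB : ∀ n : ℕ, 2 ≤ n → W B (Artin (CoxeterMatrix.B n)) := fun n hn =>
    Pool.Agent.H53.BR.BC.B_mem hC (fun m => hfin _) n (by omega)
  have h1 : ∀ (V : Type) [Fintype V] (M : CoxeterMatrix V), LocallyElementary M →
      W B (VirtualArtin M) := fun V _ M hM => E.va_elem hC hW hfin hcyc hB M hM
  refine ⟨⟨fun n => h1 _ _ fun X _ => ⟨Set.univ, Set.subset_univ _, Or.inr (Or.inl ⟨n,
    Equiv.Set.univ _, fun _ _ => rfl⟩)⟩, h1, fun V _ M hL => E.va_locred hC hW hfin M hL
      fun _ _ _ => hcyc 3 le_rfl⟩, ?_, fun V _ M => E.va_block hC hW M, ?_, ?_⟩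
  · intro V _ M h1 G _ N _ he
    obtain ⟨e⟩ := he
    have h3 : W B N := W_sub N (VirtualArtin M) e.symm.toMonoidHom e.symm.injective h1
    exact ⟨fun hQ => W_ext hI G N h3 hQ, fun _ hB => hI.ext G N hB (W_over G N h3)⟩
  · rw [E.va_spherical hC hW hfin]
    exact ⟨fun h => h.2.2, fun h => ⟨hcyc, hB, h⟩⟩
  · rw [E.va_classical hC hW hfin]
    exact ⟨fun h => h.2, fun h => ⟨hcyc, h⟩⟩

end Pool.Agent.Results.MP_b169d2_gt.VirtualBraidGroups
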